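import Mathlib

set_option autoImplicit false

namespace Pool.Agent.Results.MP_39cb5d_an.Counter

open Filter Topology Real

/-- `φ` is a continuous nondecreasing solution of the sliding-window equation with window `r`. -/
def IsSolution (r : ℕ) (φ : ℝ → ℝ) : Prop :=
  Continuous φ ∧ Monotone φ ∧ ∀ x : ℝ, φ (∑ j ∈ Finset.range r, φ (x - j)) = x

noncomputable def P (s : ℝ) : ℝ := s / 2 + Real.sin (π * s) / 20

lemma sin_lip (s t : ℝ) : |Real.sin (π * t) - Real.sin (π * s)| ≤ 4 * |t - s| := by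
  have h := Real.abs_sin_sub_sin_le (π * t) (π * s)
  rw [← mul_sub, abs_mul, abs_of_pos Real.pi_pos] at h
  exact h.trans (mul_le_mul_of_nonneg_right Real.pi_le_four (abs_nonneg _))

lemma P_mono : StrictMono P := by
  intro s t h
  have h1 := sin_lip s t
  rw [abs_of_pos (sub_pos.2 h)] at h1
  have := (abs_le.1 h1).1
  unfold P; linarith

lemma P_lip (s t : ℝ) : |P t - P s| ≤ 7 / 10 * |t - s| := by
  have h1 := abs_le.1 (sin_lip s t)
  have h2 := le_abs_self (t - s)
  have h3 := neg_abs_le (t - s)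
  rw [abs_le]; unfold P; constructor <;> linarith [h1.1, h1.2]

lemma P_cont : Continuous P := by unfold P; fun_prop

lemma P_surj : Function.Surjective P := by
  intro y
  apply mem_range_of_exists_le_of_exists_ge P_cont
  · refine ⟨2 * y - 1, ?_⟩
    have := Real.sin_le_one (π * (2 * y - 1))
    unfold P; linarith
  · refine ⟨2 * y + 1, ?_⟩
    have := Real.neg_one_le_sin (π * (2 * y + 1))
    unfold P; linarith

lemma P_add_one (s : ℝ) : P s + P (s + 1) = s + 1 / 2 := by
  unfold P; rw [mul_add, mul_one, Real.sin_add_pi]; ring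

lemma P_add_two (s : ℝ) : P (s + 2) = P s + 1 := by
  have h1 := P_add_one s
  have h2 := P_add_one (s + 1)
  rw [show s + 1 + 1 = s + 2 by ring] at h2
  linarith

noncomputable def Po : ℝ ≃o ℝ := P_mono.orderIsoOfSurjective P P_surj

noncomputable def D : ℝ ≃o ℝ := OrderIso.mulLeft₀ 2 (by norm_num)

noncomputable def Gs : ℕ → (ℝ ≃o ℝ)
  | 0 => OrderIso.refl ℝ
  | n + 1 => (D.trans (Gs n).symm).trans Po

lemma Gs_succ (n : ℕ) (t : ℝ) : Gs (n + 1) t = P ((Gs n).symm (2 * t)) := rfl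

lemma Hs_succ (n : ℕ) (s : ℝ) : (Gs (n + 1)).symm (P s) = Gs n s / 2 := by
  rw [OrderIso.symm_apply_eq, Gs_succ, show 2 * (Gs n s / 2) = Gs n s by ring,
    OrderIso.symm_apply_apply]

lemma symm_per (G : ℝ ≃o ℝ) (h : ∀ t, G (t + 1) = G t + 1) (y : ℝ) :
    G.symm (y + 1) = G.symm y + 1 := by
  rw [OrderIso.symm_apply_eq, h, OrderIso.apply_symm_apply]

lemma Gs_per (n : ℕ) : ∀ t, Gs n (t + 1) = Gs n t + 1 := by
  induction n with
  | zero => intro t; rfl
  | succ n ih =>
    intro t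
    rw [Gs_succ, Gs_succ, show 2 * (t + 1) = 2 * t + 1 + 1 by ring, symm_per _ ih, symm_per _ ih,
      add_assoc, one_add_one_eq_two, P_add_two]

lemma step (n : ℕ) : (∀ t, |Gs (n + 1) t - Gs n t| ≤ (7 / 10) ^ n) ∧
    ∀ y, |(Gs (n + 1)).symm y - (Gs n).symm y| ≤ (7 / 10) ^ n := by
  induction n with
  | zero =>
    constructor
    · intro t
      rw [Gs_succ]
      show |P (2 * t) - t| ≤ _
      have h1 := Real.sin_le_one (π * (2 * t))
      have h2 := Real.neg_one_le_sin (π * (2 * t))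
      rw [abs_le]; unfold P; constructor <;> linarith
    · intro y
      obtain ⟨s, rfl⟩ := P_surj y
      rw [Hs_succ]
      show |s / 2 - P s| ≤ _
      have h1 := Real.sin_le_one (π * s)
      have h2 := Real.neg_one_le_sin (π * s)
      rw [abs_le]; unfold P; constructor <;> linarith
  | succ n ih =>
    have hp : (0 : ℝ) ≤ (7 / 10) ^ n := by positivity
    constructor
    · intro t
      rw [Gs_succ, Gs_succ n]
      refine (P_lip _ _).trans ?_
      have := ih.2 (2 * t)
      rw [pow_succ]; linarith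
    · intro y
      obtain ⟨s, rfl⟩ := P_surj y
      rw [Hs_succ, Hs_succ, ← sub_div, abs_div, abs_two, pow_succ]
      have := ih.1 s
      linarith

lemma lim_exists (u : ℕ → ℝ → ℝ) (h : ∀ n t, |u (n + 1) t - u n t| ≤ (7 / 10) ^ n) :
    ∃ U : ℝ → ℝ, (∀ t, Tendsto (fun n => u n t) atTop (𝓝 (U t))) ∧
      ∀ n t, |u n t - U t| ≤ 4 * (7 / 10) ^ n := by
  have hd : ∀ t n, dist (u n t) (u (n + 1) t) ≤ 1 * (7 / 10) ^ n := by
    intro t n; rw [dist_comm, Real.dist_eq, one_mul]; exact h n t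
  have hc : ∀ t, ∃ a, Tendsto (fun n => u n t) atTop (𝓝 a) := fun t =>
    cauchySeq_tendsto_of_complete (cauchySeq_of_le_geometric (7 / 10) 1 (by norm_num) (hd t))
  choose U hU using hc
  refine ⟨U, hU, fun n t => ?_⟩
  have := dist_le_of_le_geometric_of_tendsto (7 / 10) 1 (by norm_num) (hd t) (hU t) n
  rw [Real.dist_eq] at this
  have hp : (0 : ℝ) ≤ (7 / 10) ^ n := by positivity
  refine this.trans ?_
  rw [div_le_iff₀ (by norm_num)]; linarith

lemma geo : Tendsto (fun n : ℕ => 4 * (7 / 10 : ℝ) ^ n) atTop (𝓝 0) := by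
  have := (tendsto_pow_atTop_nhds_zero_of_lt_one (r := (7 / 10 : ℝ)) (by norm_num)
    (by norm_num)).const_mul 4
  simpa using this

lemma exists_GH : ∃ G H : ℝ → ℝ, Continuous G ∧ Monotone G ∧ (∀ t, G (t + 1) = G t + 1) ∧
    (∀ t, H (t + 1) = H t + 1) ∧ (∀ t, G t = P (H (2 * t))) ∧ ∀ y, G (H y) = y := by
  obtain ⟨G, hG, hG'⟩ := lim_exists (fun n t => Gs n t) (fun n => (step n).1)
  obtain ⟨H, hH, -⟩ := lim_exists (fun n t => (Gs n).symm t) (fun n => (step n).2)
  have hcont : Continuous G := by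
    have hu : TendstoUniformly (fun n t => Gs n t) G atTop := by
      rw [Metric.tendstoUniformly_iff]
      intro ε hε
      filter_upwards [geo.eventually (gt_mem_nhds hε)] with n hn t
      rw [dist_comm, Real.dist_eq]
      exact lt_of_le_of_lt (hG' n t) hn
    exact hu.continuous (Frequently.of_forall fun n => (Gs n).continuous)
  refine ⟨G, H, hcont, ?_, ?_, ?_, ?_, ?_⟩
  · intro s t hst
    exact le_of_tendsto_of_tendsto' (hG s) (hG t) fun n => (Gs n).monotone hst
  · intro t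
    refine tendsto_nhds_unique (hG (t + 1)) ?_
    simp only [Gs_per]
    exact (hG t).add_const 1
  · intro t
    refine tendsto_nhds_unique (hH (t + 1)) ?_
    simp only [symm_per _ (Gs_per _)]
    exact (hH t).add_const 1
  · intro t
    refine tendsto_nhds_unique ((tendsto_add_atTop_iff_nat 1).2 (hG t)) ?_
    simp only [Gs_succ]
    exact (P_cont.tendsto _).comp (hH (2 * t))
  · intro y
    refine tendsto_nhds_unique ((hcont.tendsto _).comp (hH y)) ?_
    rw [tendsto_iff_dist_tendsto_zero]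
    refine squeeze_zero (fun n => dist_nonneg) (fun n => ?_) geo
    have := hG' n ((Gs n).symm y)
    simp only [OrderIso.apply_symm_apply] at this
    rw [dist_comm, Real.dist_eq]
    exact this

lemma main : ∃ φ : ℝ → ℝ, IsSolution 4 φ ∧ φ ≠ fun x => x / √(4 : ℕ) + (√(4 : ℕ) - 1) / 2 := by
  obtain ⟨G, H, hc, hm, hG, hH, hP, hGH⟩ := exists_GH
  refine ⟨fun x => G ((x - 1) / 2) + 1, ⟨by fun_prop, ?_, ?_⟩, ?_⟩
  · intro s t hst
    have := hm (show (s - 1) / 2 ≤ (t - 1) / 2 by linarith)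
    simp only; linarith
  · intro x
    simp only [Finset.sum_range_succ, Finset.sum_range_zero]
    push_cast
    have key : G ((x - 4) / 2) + G ((x - 3) / 2) = H (x - 4) + 1 / 2 := by
      rw [hP, hP ((x - 3) / 2), show 2 * ((x - 4) / 2) = x - 4 by ring,
        show 2 * ((x - 3) / 2) = x - 4 + 1 by ring, hH, P_add_one]
    have e0 : G ((x - 0 - 1) / 2) = G ((x - 3) / 2) + 1 := by rw [← hG]; congr 1; ring
    have e1 : G ((x - 1 - 1) / 2) = G ((x - 4) / 2) + 1 := by rw [← hG]; congr 1; ring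
    have e2 : G ((x - 2 - 1) / 2) = G ((x - 3) / 2) := by congr 1; ring
    have e3 : G ((x - 3 - 1) / 2) = G ((x - 4) / 2) := by congr 1; ring
    have e4 : H (x - 1) = H (x - 4) + 3 := by
      rw [show x - 1 = x - 4 + 1 + 1 + 1 by ring, hH, hH, hH]; ring
    rw [e0, e1, e2, e3]
    have e5 := hGH (x - 1)
    rw [e4] at e5
    have e6 : (0 + (G ((x - 3) / 2) + 1 + 1) + (G ((x - 4) / 2) + 1 + 1) + (G ((x - 3) / 2) + 1) +
      (G ((x - 4) / 2) + 1) - 1) / 2 = H (x - 4) + 3 := by linarith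
    rw [e6, e5]; ring
  · intro h
    have s4 : √((4 : ℕ) : ℝ) = 2 := by
      rw [show ((4 : ℕ) : ℝ) = 2 ^ 2 by norm_num, Real.sqrt_sq (by norm_num)]
    have hid : ∀ t, G t = t := by
      intro t
      have := congrFun h (2 * t + 1)
      simp only [s4] at this
      rw [show (2 * t + 1 - 1) / 2 = t by ring] at this
      linarith
    have h1 := hP (1 / 4)
    have h2 := hGH (2 * (1 / 4))
    rw [hid] at h1 h2
    rw [h2] at h1
    unfold P at h1
    rw [show π * (2 * (1 / 4)) = π / 2 by ring, Real.sin_pi_div_two] at h1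
    norm_num at h1

theorem result :
    (∃ φ : ℝ → ℝ, IsSolution 4 φ ∧ φ ≠ fun x => x / √(4 : ℕ) + (√(4 : ℕ) - 1) / 2) ∧
    ¬ ∀ r : ℕ, 2 ≤ r → ∀ φ : ℝ → ℝ, IsSolution r φ →
      φ = fun x => x / √(r : ℝ) + (√(r : ℝ) - 1) / 2 := by
  refine ⟨main, fun h => ?_⟩
  obtain ⟨φ, h1, h2⟩ := main
  exact h2 (h 4 (by norm_num) φ h1)

end Pool.Agent.Results.MP_39cb5d_an.Counter
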